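import Mathlib
import Pool.Agent.R503.CSD.Bas
import Pool.Agent.U787.LC1
import Pool.Agent.U787.LC2
import Pool.Agent.U787.LC3

/-! # MP_77d073_nt: `n (n - 1)` independent limit values of a counterexample, and no more

Let `n ≥ 3` be prime, let `L 1, ..., L n` be independent linear forms with product `F` bounded away
from zero at the nonzero integer points. For integer points `x 1, ..., x m` let `Values L x` be the
set of the vectors `(F (γ x 1), ..., F (γ x m))`, `γ` integral of determinant `±1`. The points are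
free if the derivative of `L ↦ (F (x 1), ..., F (x m)) / det L` is surjective at some `L`.

1. There are `n (n - 1)` free points.
2. If the points are free and `L` is a counterexample to Oppenheim's conjecture, there is a closed
   nonempty part `T` of the closure of `Values L x` so that every nonempty relatively open part of
   `T` contains, for every countable subfield `K` of `ℝ`, a vector with entries algebraically
   independent over `K`, and more generally, for countably many analytic functions, not identically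
   zero on their connected open domains, a vector which is a zero of none of them.
3. Let `m ≥ 1` and the points free. Oppenheim's conclusion holds for `L` if and only if the closure
   of `Values L x` lies in the union of the zero sets of countably many analytic functions as in 2,
   and if and only if there is a countable subfield `K` over which the entries of every vector in the
   closure of `Values L x` are algebraically dependent.
4. Two cannot be extended to more values: for more than `n (n - 1)` points there is a nonzero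
   rational polynomial `P`, depending only on the points, with `P (v / |det L|) = 0` for all
   independent `L` and all `v` in the closure of `Values L x`.
5. Oppenheim's conjecture in the prime dimension `n` is equivalent to: for all `L` with `F` bounded
   away from zero and `n (n - 1)` free points `x` the closure of `Values L x` lies in a countable
   union of analytic hypersurfaces as in 3. -/

set_option autoImplicit false

open Filter Topology

namespace Pool.Agent.Results.MP_77d073_nt.FreeValues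

variable {n : ℕ}

/-- the product of the linear forms with the coefficients `L i`, at an integer point -/
noncomputable def F (L : Fin n → Fin n → ℝ) (p : Fin n → ℤ) : ℝ :=
  ∏ i : Fin n, ∑ j : Fin n, L i j * (p j : ℝ)

/-- the product is bounded away from zero at the nonzero integer points -/
def BoundedAway (L : Fin n → Fin n → ℝ) : Prop :=
  ∃ ν : ℝ, 0 < ν ∧ ∀ p : Fin n → ℤ, p ≠ 0 → ν ≤ |F L p|

/-- Oppenheim's conclusion: there is an irreducible RS-matrix whose invariant planes are the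
hyperplanes `L i = 0`. -/
def HasMatrix (L : Fin n → Fin n → ℝ) : Prop :=
  ∃ A : Matrix (Fin n) (Fin n) ℤ,
    A.det = 1 ∧
    Irreducible (A.charpoly.map (Int.castRingHom ℚ)) ∧
    (∀ z : ℂ, Polynomial.aeval z A.charpoly = 0 → z.im = 0) ∧
    ∀ i : Fin n, ∀ x : Fin n → ℝ, ∑ j, L i j * x j = 0 →
      ∑ j, L i j * ((A.map (Int.cast : ℤ → ℝ)).mulVec x) j = 0

/-- Oppenheim's conjecture in dimension `n` -/
def Oppenheim (n : ℕ) : Prop :=
  ∀ L : Fin n → Fin n → ℝ, LinearIndependent ℝ L → BoundedAway L → HasMatrix L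

/-- the vectors of the values at the points `γ x 1, ..., γ x m` -/
def Values {m : ℕ} (L : Fin n → Fin n → ℝ) (x : Fin m → Fin n → ℤ) : Set (Fin m → ℝ) :=
  {y | ∃ γ : Matrix (Fin n) (Fin n) ℤ, |γ.det| = 1 ∧ ∀ k, y k = F L (γ.mulVec (x k))}

/-- The derivative of `L ↦ (F (x 1), ..., F (x m)) / det L` is surjective at some `L` with
`det L ≠ 0`. -/
def FreePoints {m : ℕ} (x : Fin m → Fin n → ℤ) : Prop :=
  ∃ L : Fin n → Fin n → ℝ, (Matrix.of L).det ≠ 0 ∧
    Function.Surjective (fderiv ℝ (fun (L : Fin n → Fin n → ℝ) (k : Fin m) =>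
      F L (x k) / (Matrix.of L).det) L)

/-- The set lies in the union of the zero sets of countably many analytic functions, which are
defined on connected open sets and not identically zero there. -/
def InHypersurfaces {m : ℕ} (S : Set (Fin m → ℝ)) : Prop :=
  ∃ (V : ℕ → Set (Fin m → ℝ)) (φ : ℕ → (Fin m → ℝ) → ℝ),
    (∀ k, IsOpen (V k) ∧ IsConnected (V k) ∧ AnalyticOnNhd ℝ (φ k) (V k) ∧
      ∃ y ∈ V k, φ k y ≠ 0) ∧
    ∀ y ∈ S, ∃ k, y ∈ V k ∧ φ k y = 0

/-- The entries of the vector are algebraically dependent over the subfield. -/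
def Dependent {m : ℕ} (K : Subfield ℝ) (v : Fin m → ℝ) : Prop := ¬ AlgebraicIndependent K v

lemma not_propInt (hn : 3 ≤ n) {L : Fin n → Fin n → ℝ} (hL : LinearIndependent ℝ L)
    (hb : BoundedAway L) (hA : ¬ HasMatrix L) : ¬ H715R2.PropInt (Matrix.of L) := fun hP =>
  hA (Pool.Agent.H905R2.Opp.opp_of_propInt (by omega) hL hb hP)

lemma propInt (hn : 3 ≤ n) {L : Fin n → Fin n → ℝ} (hL : LinearIndependent ℝ L)
    (hb : BoundedAway L) (hA : HasMatrix L) : H715R2.PropInt (Matrix.of L) := by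
  obtain ⟨ν, hν, hF⟩ := hb
  obtain ⟨A, -, hA1, -, hA2⟩ := hA
  exact Y327.propInt_of_opp hn (Pool.Agent.H905R2.Opp.det_ne hL) hν hF hA1 hA2

/-- values at a point of the limits -/
lemma values_mem {m : ℕ} {L : Fin n → Fin n → ℝ} (x : Fin m → Fin n → ℤ)
    {h : Fin n → Fin n → ℝ} (hh : Matrix.of h ∈ closure (H715R2.Orb (Matrix.of L))) :
    R503.CSD.FV x h ∈ closure (Values L x) := by
  have hc : Continuous (fun h : Matrix (Fin n) (Fin n) ℝ =>
      (fun k => H715R2.FF h (H715R2.iR (x k)) : Fin m → ℝ)) :=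
    continuous_pi fun k => H715R2.continuous_FF _
  refine map_mem_closure (f := fun h : Matrix (Fin n) (Fin n) ℝ =>
      (fun k => H715R2.FF h (H715R2.iR (x k)) : Fin m → ℝ)) hc hh ?_
  rintro _ ⟨a, γ, ha0, ha1, hγ, rfl⟩
  refine ⟨γ, Int.isUnit_iff_abs_eq.1 hγ, fun k => ?_⟩
  exact H715R2.FF_orb ha1 (Matrix.of L) γ (x k)

/-- the values come from the orbit -/
lemma exists_of_values {m : ℕ} {L : Fin n → Fin n → ℝ} {x : Fin m → Fin n → ℤ}
    {y : Fin m → ℝ} (hy : y ∈ Values L x) :
    ∃ h : Fin n → Fin n → ℝ, Matrix.of h ∈ closure (H715R2.Orb (Matrix.of L)) ∧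
      R503.CSD.FV x h = y := by
  obtain ⟨γ, hγ, hy⟩ := hy
  refine ⟨fun i j => (Matrix.of L * H715R2.zR γ) i j, subset_closure ?_, ?_⟩
  · refine ⟨fun _ => 1, γ, fun _ => one_pos, by simp, Int.isUnit_iff_abs_eq.2 hγ, ?_⟩
    have h1 : Matrix.diagonal (fun _ : Fin n => (1 : ℝ)) = 1 := Matrix.diagonal_one
    rw [h1, Matrix.one_mul]
    rfl
  · funext k
    have h1 : R503.CSD.FV x (fun i j => (Matrix.of L * H715R2.zR γ) i j) k =
        H715R2.FF (Matrix.of L * H715R2.zR γ) (H715R2.iR (x k)) := rfl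
    rw [h1, H715R2.FF_mul, H715R2.zR_mulVec_iR, hy]
    rfl

/-- the data of a counterexample -/
lemma exists_dat (hn : 3 ≤ n) (hp : n.Prime) {L : Fin n → Fin n → ℝ}
    (hL : LinearIndependent ℝ L) (hb : BoundedAway L) (hA : ¬ HasMatrix L) :
    ∃ (ν : ℝ) (M : Set (Matrix (Fin n) (Fin n) ℝ)), U787.LC.DatG ν M (Matrix.of L) := by
  have hint := not_propInt hn hL hb hA
  have hdet := Pool.Agent.H905R2.Opp.det_ne hL
  obtain ⟨ν, hν, hF⟩ := hb
  obtain ⟨M, hMg, hM⟩ := Y327.exists_min_closure (by omega : 0 < n) hdet hν hF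
  exact ⟨ν, M, hn, hp, hν, hdet, hF, hint, hMg, hM⟩

lemma closure_FS {m : ℕ} {L : Fin n → Fin n → ℝ} (x : Fin m → Fin n → ℤ)
    {M : Set (Matrix (Fin n) (Fin n) ℝ)} (hMg : M ⊆ closure (H715R2.Orb (Matrix.of L))) :
    closure (U787.LC.FS x M) ⊆ closure (Values L x) := by
  refine closure_minimal ?_ isClosed_closure
  rintro _ ⟨h, hh, rfl⟩
  exact values_mem x (hMg hh)

/-- the limit values of an integral form -/
lemma mult_of_matrix (hn : 3 ≤ n) {L : Fin n → Fin n → ℝ} (hL : LinearIndependent ℝ L)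
    (hb : BoundedAway L) (hA : HasMatrix L) : ∃ c : ℝ, c ≠ 0 ∧
      ∀ (m : ℕ) (x : Fin m → Fin n → ℤ), ∀ v ∈ closure (Values L x), ∀ k, ∃ z : ℤ, v k = z * c := by
  obtain ⟨c, hc, hz⟩ := H715R2.values_of_propInt (propInt hn hL hb hA)
  refine ⟨c, hc, fun m x v hv k => ?_⟩
  have hcl : IsClosed {t : ℝ | ∃ z : ℤ, t = z * c} := by
    have h1 : {t : ℝ | ∃ z : ℤ, t = z * c} =
        (fun t : ℝ => t * c⁻¹) ⁻¹' (Set.range ((↑) : ℤ → ℝ)) := by
      ext t
      constructor
      · rintro ⟨z, hz⟩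
        exact ⟨z, by rw [hz]; field_simp⟩
      · rintro ⟨z, hz⟩
        refine ⟨z, ?_⟩
        have h2 : (z : ℝ) = t * c⁻¹ := hz
        rw [h2]; field_simp
    rw [h1]
    exact (Int.isClosedEmbedding_coe_real.isClosed_range).preimage (continuous_mul_const _)
  have hsub : Values L x ⊆ (fun v : Fin m → ℝ => v k) ⁻¹' {t : ℝ | ∃ z : ℤ, t = z * c} := by
    rintro y ⟨γ, hγ, hy⟩
    obtain ⟨z, hz1⟩ := hz (γ.mulVec (x k))
    exact ⟨z, ((hy k).trans hz1).trans (mul_comm _ _)⟩
  exact closure_minimal hsub (hcl.preimage (continuous_apply k)) hv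

lemma inHyp_of_matrix (hn : 3 ≤ n) {L : Fin n → Fin n → ℝ} (hL : LinearIndependent ℝ L)
    (hb : BoundedAway L) (hA : HasMatrix L) {m : ℕ} (hm : 0 < m) (x : Fin m → Fin n → ℤ) :
    InHypersurfaces (closure (Values L x)) := by
  obtain ⟨c, hc, hz⟩ := mult_of_matrix hn hL hb hA
  set k₀ : Fin m := ⟨0, hm⟩ with hk₀
  refine ⟨fun _ => Set.univ, fun _ y => Real.sin (c⁻¹ * y k₀ * Real.pi), fun _ =>
    ⟨isOpen_univ, isConnected_univ, ?_, ?_⟩, ?_⟩
  · intro y _
    have h1 : AnalyticAt ℝ (fun y : Fin m → ℝ => c⁻¹ * y k₀ * Real.pi) y :=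
      (analyticAt_const.mul ((ContinuousLinearMap.proj (R := ℝ) (φ := fun _ : Fin m => ℝ)
        k₀).analyticAt y)).mul analyticAt_const
    exact (Real.analyticAt_sin).comp h1
  · refine ⟨fun _ => c / 2, Set.mem_univ _, ?_⟩
    show Real.sin (c⁻¹ * (c / 2) * Real.pi) ≠ 0
    rw [show c⁻¹ * (c / 2) * Real.pi = Real.pi / 2 by field_simp, Real.sin_pi_div_two]
    exact one_ne_zero
  · intro y hy
    obtain ⟨z, hz1⟩ := hz m x y hy k₀
    refine ⟨0, Set.mem_univ _, ?_⟩
    show Real.sin (c⁻¹ * y k₀ * Real.pi) = 0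
    rw [hz1, show c⁻¹ * ((z : ℝ) * c) = z by field_simp]
    exact Real.sin_int_mul_pi z

lemma dependent_of_matrix (hn : 3 ≤ n) {L : Fin n → Fin n → ℝ} (hL : LinearIndependent ℝ L)
    (hb : BoundedAway L) (hA : HasMatrix L) {m : ℕ} (hm : 0 < m) (x : Fin m → Fin n → ℤ) :
    ∃ K : Subfield ℝ, (K : Set ℝ).Countable ∧ ∀ v ∈ closure (Values L x), Dependent K v := by
  obtain ⟨c, hc, hz⟩ := mult_of_matrix hn hL hb hA
  refine ⟨Subfield.closure {c}, ?_, fun v hv hd => ?_⟩
  · have h1 : Cardinal.mk (Subfield.closure {c} : Subfield ℝ) ≤ Cardinal.aleph0 := by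
      refine (Subfield.cardinalMk_closure_le_max ({c} : Set ℝ)).trans (max_le ?_ le_rfl)
      exact Cardinal.mk_le_aleph0_iff.2 (Set.countable_singleton c).to_subtype
    exact Set.countable_coe_iff.1 (Cardinal.mk_le_aleph0_iff.1 h1)
  · obtain ⟨z, hz1⟩ := hz m x v hv ⟨0, hm⟩
    have h1 := hd.transcendental ⟨0, hm⟩
    have h2 : v ⟨0, hm⟩ ∈ Subfield.closure {c} := by
      rw [hz1]
      exact mul_mem (intCast_mem _ z) (Subfield.subset_closure rfl)
    exact h1 (isAlgebraic_algebraMap (⟨_, h2⟩ : Subfield.closure {c}))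

theorem result (n : ℕ) (hn : 3 ≤ n) (hp : n.Prime) :
    -- 1. there are `n (n - 1)` free points
    (∃ x : Fin (n * (n - 1)) → Fin n → ℤ, FreePoints x) ∧
    -- 2. the limit values of a counterexample at free points
    (∀ L : Fin n → Fin n → ℝ, LinearIndependent ℝ L → BoundedAway L → ¬ HasMatrix L →
      ∀ (m : ℕ) (x : Fin m → Fin n → ℤ), FreePoints x →
        ∃ T ⊆ closure (Values L x), IsClosed T ∧ T.Nonempty ∧
          ∀ W : Set (Fin m → ℝ), IsOpen W → (W ∩ T).Nonempty →
            ¬ InHypersurfaces (W ∩ T) ∧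
            ∀ K : Subfield ℝ, (K : Set ℝ).Countable → ∃ v ∈ W ∩ T, AlgebraicIndependent K v) ∧
    -- 3. criteria for a single product
    (∀ L : Fin n → Fin n → ℝ, LinearIndependent ℝ L → BoundedAway L →
      ∀ (m : ℕ) (x : Fin m → Fin n → ℤ), 0 < m → FreePoints x →
        (HasMatrix L ↔ InHypersurfaces (closure (Values L x))) ∧
        (HasMatrix L ↔ ∃ K : Subfield ℝ, (K : Set ℝ).Countable ∧
          ∀ v ∈ closure (Values L x), Dependent K v)) ∧
    -- 4. more than `n (n - 1)` values
    (∀ (m : ℕ) (x : Fin m → Fin n → ℤ), n * (n - 1) < m →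
      ∃ P : MvPolynomial (Fin m) ℚ, P ≠ 0 ∧
        ∀ L : Fin n → Fin n → ℝ, LinearIndependent ℝ L → ∀ v ∈ closure (Values L x),
          MvPolynomial.aeval (fun k => v k / |(Matrix.of L).det|) P = 0) ∧
    -- 5. the conjecture in the prime dimension `n`
    (Oppenheim n ↔ ∀ L : Fin n → Fin n → ℝ, LinearIndependent ℝ L → BoundedAway L →
      ∃ x : Fin (n * (n - 1)) → Fin n → ℤ, FreePoints x ∧
        InHypersurfaces (closure (Values L x))) := by
  classical
  have hn0 : 0 < n * (n - 1) := Nat.mul_pos (by omega) (by omega)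
  obtain ⟨x₀, hx₀⟩ := U787.LC.exists_free n
  have part2 : ∀ L : Fin n → Fin n → ℝ, LinearIndependent ℝ L → BoundedAway L → ¬ HasMatrix L →
      ∀ (m : ℕ) (x : Fin m → Fin n → ℤ), FreePoints x →
        ∃ T ⊆ closure (Values L x), IsClosed T ∧ T.Nonempty ∧
          ∀ W : Set (Fin m → ℝ), IsOpen W → (W ∩ T).Nonempty →
            ¬ InHypersurfaces (W ∩ T) ∧
            ∀ K : Subfield ℝ, (K : Set ℝ).Countable → ∃ v ∈ W ∩ T, AlgebraicIndependent K v := by
    intro L hL hb hA m x hx
    obtain ⟨ν, M, D⟩ := exists_dat hn hp hL hb hA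
    obtain ⟨h, hh⟩ := D.hM.ne
    refine ⟨closure (U787.LC.FS x M), closure_FS x D.hMg, isClosed_closure,
      ⟨_, subset_closure ⟨h, hh, rfl⟩⟩, fun W hW hWne => ?_⟩
    have hWne' : (W ∩ U787.LC.FS x M).Nonempty := by
      obtain ⟨y, hyW, hy⟩ := hWne
      exact mem_closure_iff.1 hy W hW hyW
    refine ⟨?_, fun K hK => U787.LC.alg_indepG D hx K hK hW hWne'⟩
    rintro ⟨V, φ, h1, h2⟩
    obtain ⟨v, hv1, hv2⟩ := U787.LC.baireG D hx (fun k => (h1 k).1)
      (fun k => (h1 k).2.1.isPreconnected) (fun k => (h1 k).2.2.1) (fun k => (h1 k).2.2.2) hW hWne'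
    obtain ⟨k, hk⟩ := h2 v hv1
    exact hv2 k hk
  have part3 : ∀ L : Fin n → Fin n → ℝ, LinearIndependent ℝ L → BoundedAway L →
      ∀ (m : ℕ) (x : Fin m → Fin n → ℤ), 0 < m → FreePoints x →
        (HasMatrix L ↔ InHypersurfaces (closure (Values L x))) ∧
        (HasMatrix L ↔ ∃ K : Subfield ℝ, (K : Set ℝ).Countable ∧
          ∀ v ∈ closure (Values L x), Dependent K v) := by
    intro L hL hb m x hm hx
    refine ⟨⟨fun hA => inHyp_of_matrix hn hL hb hA hm x, fun h => ?_⟩,
      ⟨fun hA => dependent_of_matrix hn hL hb hA hm x, fun h => ?_⟩⟩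
    · by_contra hA
      obtain ⟨T, hT, -, hTne, hT2⟩ := part2 L hL hb hA m x hx
      obtain ⟨V, φ, h1, h2⟩ := h
      refine (hT2 Set.univ isOpen_univ (by rwa [Set.univ_inter])).1 ⟨V, φ, h1, fun y hy => ?_⟩
      exact h2 y (hT hy.2)
    · by_contra hA
      obtain ⟨T, hT, -, hTne, hT2⟩ := part2 L hL hb hA m x hx
      obtain ⟨K, hK, h2⟩ := h
      obtain ⟨v, hv, hv2⟩ := (hT2 Set.univ isOpen_univ (by rwa [Set.univ_inter])).2 K hK
      exact h2 v (hT hv.2) hv2
  refine ⟨⟨x₀, hx₀⟩, part2, part3, ?_, ?_⟩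
  · intro m x hm
    obtain ⟨P, hP, hr⟩ := U787.LC.relation (by omega : 0 < n) hm x
    refine ⟨P, hP, fun L hL v hv => ?_⟩
    have hdet := Pool.Agent.H905R2.Opp.det_ne hL
    have hc : Continuous fun v : Fin m → ℝ =>
        MvPolynomial.aeval (fun k => v k / |(Matrix.of L).det|) P :=
      (U787.LC.continuous_aeval P).comp (continuous_pi fun k =>
        (continuous_apply k).div_const _)
    have hcl : IsClosed {v : Fin m → ℝ |
        MvPolynomial.aeval (fun k => v k / |(Matrix.of L).det|) P = 0} :=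
      isClosed_eq hc continuous_const
    refine closure_minimal ?_ hcl hv
    rintro y ⟨γ, hγ, hy⟩
    have h1 : |(Matrix.of L * H715R2.zR γ).det| = |(Matrix.of L).det| := by
      rw [Matrix.det_mul, abs_mul]
      have h2 : (H715R2.zR γ).det = ((γ.det : ℤ) : ℝ) := by
        rw [H715R2.zR]
        exact (Int.castRingHom ℝ).map_det γ |>.symm
      rw [h2, ← Int.cast_abs, hγ]
      simp
    have h2 : (Matrix.of L * H715R2.zR γ).det ≠ 0 := by
      rw [← abs_ne_zero, h1, abs_ne_zero]
      exact hdet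
    have h3 := hr (Matrix.of L * H715R2.zR γ) h2
    rw [h1] at h3
    have h4 : (fun k => y k / |(Matrix.of L).det|) = fun k =>
        U787.LC.Fm (Matrix.of L * H715R2.zR γ) (x k) / |(Matrix.of L).det| := by
      funext k
      congr 1
      have h5 : U787.LC.Fm (Matrix.of L * H715R2.zR γ) (x k) =
          H715R2.FF (Matrix.of L * H715R2.zR γ) (H715R2.iR (x k)) := rfl
      rw [h5, H715R2.FF_mul, H715R2.zR_mulVec_iR, hy]
      rfl
    show MvPolynomial.aeval (fun k => y k / |(Matrix.of L).det|) P = 0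
    rw [h4]
    exact h3
  · constructor
    · intro hO L hL hb
      exact ⟨x₀, hx₀, (part3 L hL hb _ x₀ hn0 hx₀).1.1 (hO L hL hb)⟩
    · intro hO L hL hb
      obtain ⟨x, hx, h⟩ := hO L hL hb
      exact (part3 L hL hb _ x hn0 hx).1.2 h

end Pool.Agent.Results.MP_77d073_nt.FreeValues
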