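import Pool.Agent.U541.TC.SymCf

set_option autoImplicit false

/-! # MP_77d073_nt: symmetric powers of systems of linear forms of any size, limit forms

The systems are given by the rows of square real matrices; `formProd M x` is the product of the
linear forms at the integer point `x`.  `IsLimit g l` says that `l` is a limit of matrices `a g γ`
with `a` diagonal of determinant `± 1` and `γ` integral unimodular.  `symP k g` is the matrix of the
`k`-th symmetric power of `g`: `subst g P = P (∑ i, X i • (row i of g))` for forms `P` of degree `k`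
in `n` variables.  Let `g`, `G` be real matrices of arbitrary sizes `n`, `r`; the rows of
`Sym^k g ⊗ G` give a system of `(n + k - 1 choose k) * r` linear forms.

1. If this system has `ν > 0` then for all limits `l` of `g`, `K` of `G` the system of
`Sym^k l ⊗ K` has the same lower bound, and for all integral forms `P ≠ 0` of degree `k` all
coefficients of the form `P (∑ i, X i • (row i of l))` are different from zero.  In particular the
rows of `l` lie on no rational hypersurface of degree `k`, and for `k = 2` no two rows (equal or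
not) are conjugate with respect to a rational quadratic form.

2. Let `g` be binary with a row proportional to `(α, 1)`, the other row and `G` being arbitrary.  If
arbitrarily long initial blocks of the continued fraction of `ξ` occur, directly or reversed, in
that of `α`, and `ξ` is algebraic of degree at most `k`, then `ν = 0`.

3. If the first row of `g` is proportional to `(α, 1)`, and arbitrarily long blocks
`(z_ℓ, ..., z_1, z_0, x_0, x_1, ..., x_ℓ)` occur in the continued fraction of `α`, where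
`ξ = [x_0; x_1, ...]` and `ζ = [z_0; z_1, ...]`, and if some coefficient of `P (ξ X + Y, X - ζ Y)`
is zero for some integral binary form `P ≠ 0` of degree `k`, then `ν = 0`.  For `k = 2` the
condition on the middle coefficient is `2 a ξ + b (1 - ξ ζ) - 2 c ζ = 0`: the two sides of the
blocks are related by a symmetric integral matrix. -/

open Matrix Kronecker Filter Topology MvPolynomial

namespace Pool.Agent.Results.MP_77d073_nt.SymmetricPowerLimits

open Pool.Agent.U541.TC Pool.Agent.N759.CFr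

theorem result :
    (∀ (ι ρ : Type) [Fintype ι] [DecidableEq ι] [Fintype ρ] [DecidableEq ρ] [Nonempty ρ] (k : ℕ)
      (g : Matrix ι ι ℝ) (G : Matrix ρ ρ ℝ) (ν : ℝ), 0 < ν →
      (∀ x : Mon ι k × ρ → ℤ, x ≠ 0 → ν ≤ |formProd (symP k g ⊗ₖ G) x|) →
      ∀ (l : Matrix ι ι ℝ) (K : Matrix ρ ρ ℝ), IsLimit g l → IsLimit G K →
        (∀ x : Mon ι k × ρ → ℤ, x ≠ 0 → ν ≤ |formProd (symP k l ⊗ₖ K) x|) ∧
        (∀ P : MvPolynomial ι ℤ, P.IsHomogeneous k → P ≠ 0 →
          (∀ d : ι →₀ ℕ, d.degree = k →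
            coeff d (subst l (MvPolynomial.map (Int.castRingHom ℝ) P)) ≠ 0) ∧
          (∀ i, eval (l i) (MvPolynomial.map (Int.castRingHom ℝ) P) ≠ 0))) ∧
    (∀ (ρ : Type) [Fintype ρ] [DecidableEq ρ] [Nonempty ρ] (α ξ : ℝ), Irrational α →
      Irrational ξ → ∀ (g : Matrix (Fin 2) (Fin 2) ℝ) (G : Matrix ρ ρ ℝ) (i₀ : Fin 2),
        g i₀ 0 = α * g i₀ 1 → Occ ξ α →
      ∀ (k : ℕ) (p : Polynomial ℤ), p ≠ 0 → p.natDegree ≤ k → Polynomial.aeval ξ p = 0 →
      ∀ ε > 0, ∃ x : Mon (Fin 2) k × ρ → ℤ, x ≠ 0 ∧ |formProd (symP k g ⊗ₖ G) x| < ε) ∧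
    (∀ (ρ : Type) [Fintype ρ] [DecidableEq ρ] [Nonempty ρ] (α ξ ζ : ℝ), Irrational α →
      Irrational ξ → Irrational ζ → ∀ (g : Matrix (Fin 2) (Fin 2) ℝ) (G : Matrix ρ ρ ℝ),
        g 0 0 = α * g 0 1 → TwoSided ξ ζ α →
      ∀ (k : ℕ) (P : MvPolynomial (Fin 2) ℤ), P.IsHomogeneous k → P ≠ 0 →
      ∀ d : Fin 2 →₀ ℕ, d.degree = k →
        coeff d (subst !![ξ, 1; 1, -ζ] (MvPolynomial.map (Int.castRingHom ℝ) P)) = 0 →
      ∀ ε > 0, ∃ x : Mon (Fin 2) k × ρ → ℤ, x ≠ 0 ∧ |formProd (symP k g ⊗ₖ G) x| < ε) := by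
  refine ⟨?_, ?_, ?_⟩
  · intro ι ρ _ _ _ _ _ k g G ν hν0 hν l K hl hK
    refine ⟨lower ((hl.sym k).kron hK) hν, fun P hP hP0 => ⟨fun d hd => ?_, fun i => ?_⟩⟩
    · exact coeff_ne hν0 hν hl hP hP0 d hd
    · exact row_ne hν0 hν hl hP hP0 i
  · intro ρ _ _ _ α ξ hα hξ g G i₀ hg ho k p hp hk h0 ε hε
    by_contra hcon
    push Not at hcon
    exact not_alg hα hξ g G i₀ hg ho hε hcon p hp hk h0
  · intro ρ _ _ _ α ξ ζ hα hξ hζ g G hg ho k P hP hP0 d hd h0 ε hε
    by_contra hcon
    push Not at hcon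
    exact polar hα hξ hζ g G hg ho hε hcon P hP hP0 d hd h0

end Pool.Agent.Results.MP_77d073_nt.SymmetricPowerLimits
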