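import Pool.Agent.U54.ST.Cor
import Pool.Agent.U54.ST.Rel

/-! # MP_77d073_nt: tensor products of symmetric powers of binary systems

For a real `2 × 2` matrix `g` let `symPow j g` be the `(j+1) × (j+1)` matrix of the map
`P ↦ P((S, T) g)` on binary forms of degree `j`: the entry `(a, q)` is the coefficient of
`S^(j-a) T^a` in `(g₀₀ S + g₁₀ T)^(j-q) (g₀₁ S + g₁₁ T)^q`. For matrices `g_i` and degrees `j_i`, `i` in
a finite set `ι`, let `tensorSym j g` be the tensor product of the matrices `symPow (j i) (g i)`. Its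
rows are `d = ∏ (j_i + 1)` linear forms in `d` variables; their product at an integer point is the
product of all the coefficients of an integral multihomogeneous form after the substitution of the
`g_i`. `SmallValues F` says that the product of the linear forms given by the rows of `F` takes
arbitrarily small values at nonzero integer points (so `ν = 0`).

Let `α_i` be irrational, let some row of `g_i` be a nonzero multiple of `(α_i, 1)` (the other rows are
arbitrary), and let `G` be any real `n × n` matrix. We show that `ν = 0` for the `d n` forms of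
`(⊗ symPow (j i) (g i)) ⊗ G` in the following cases.

1. Algebraic relations. There is a polynomial `P ≠ 0` with integral coefficients in variables `X_i`,
   of degree at most `j_i` in `X_i`, such that for every `ℓ` there are irrational numbers `x_i` with
   `P(x) = 0` and such that for every `i` the first `ℓ` partial quotients of `x_i` occur, in this or in
   the reversed order, as consecutive partial quotients of `α_i` (with positive indices).
2. Two factors. `j, k ≥ 1` and, for every `ℓ`, some block of `ℓ` consecutive partial quotients of `α`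
   occurs, directly or reversed, among the partial quotients of `β`; then `ν = 0` for
   `symPow j g ⊗ symPow k h ⊗ G`.
3. Limit systems. There are an integral vector `c ≠ 0` and an index `a` of the rows such that for every
   `ℓ` there are irrational `x_i, y_i` and positions `p_i` at which the partial quotients of `α_i`
   agree with those of `x_i` to the right (if `a_i < j_i`) and with those of `y_i` to the left (if
   `a_i > 0`) in `ℓ` places, and such that the row `a` of the limit system, the tensor product of the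
   matrices `symPow (j i) !![x_i, 1; -1, y_i]`, vanishes at `c`. -/

set_option autoImplicit false

open Matrix Kronecker
open Pool.Agent.U54.ST
open Pool.Agent.N759.CFr (pq)

namespace Pool.Agent.Results.MP_77d073_nt.SymmetricTensorProducts

theorem result :
    -- 1. algebraic relations
    (∀ (ι : Type) [Fintype ι] [DecidableEq ι] (j : ι → ℕ) (α : ι → ℝ)
      (g : ι → Matrix (Fin 2) (Fin 2) ℝ) (row : ι → Fin 2) (c : (∀ i, Fin (j i + 1)) → ℤ),
      (∀ i, Irrational (α i)) →
      (∀ i, g i (row i) 0 = α i * g i (row i) 1 ∧ g i (row i) 1 ≠ 0) → c ≠ 0 →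
      (∀ ℓ : ℕ, ∃ x : ι → ℝ, (∀ i, Irrational (x i) ∧ ∃ p : ℕ, 1 ≤ p ∧
        ((∀ r < ℓ, pq (α i) (p + r) = pq (x i) r) ∨
          (∀ r < ℓ, pq (α i) (p + r) = pq (x i) (ℓ - 1 - r)))) ∧
        ∑ q, (c q : ℝ) * ∏ i, x i ^ (q i : ℕ) = 0) →
      ∀ (n : ℕ), 0 < n → ∀ G : Matrix (Fin n) (Fin n) ℝ, SmallValues (tensorSym j g ⊗ₖ G)) ∧
    -- 2. two factors with common or mirrored blocks
    (∀ (j k : ℕ), 0 < j → 0 < k → ∀ (α β : ℝ), Irrational α → Irrational β →
      (∀ ℓ : ℕ, ∃ i i' : ℕ, (∀ r < ℓ, pq α (i + r) = pq β (i' + r)) ∨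
        (∀ r < ℓ, pq α (i + r) = pq β (i' + (ℓ - 1 - r)))) →
      ∀ (g h : Matrix (Fin 2) (Fin 2) ℝ) (i₀ j₀ : Fin 2),
        g i₀ 0 = α * g i₀ 1 → g i₀ 1 ≠ 0 → h j₀ 0 = β * h j₀ 1 → h j₀ 1 ≠ 0 →
        ∀ (n : ℕ), 0 < n → ∀ G : Matrix (Fin n) (Fin n) ℝ,
          SmallValues ((symPow j g ⊗ₖ symPow k h) ⊗ₖ G)) ∧
    -- 3. limit systems
    (∀ (ι : Type) [Fintype ι] [DecidableEq ι] (j : ι → ℕ) (α : ι → ℝ)
      (g : ι → Matrix (Fin 2) (Fin 2) ℝ) (row : ι → Fin 2) (c : (∀ i, Fin (j i + 1)) → ℤ)
      (a : ∀ i, Fin (j i + 1)), (∀ i, Irrational (α i)) →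
      (∀ i, g i (row i) 0 = α i * g i (row i) 1 ∧ g i (row i) 1 ≠ 0) → c ≠ 0 →
      (∀ ℓ : ℕ, ∃ (x y : ι → ℝ) (p : ι → ℕ),
        (∀ i, Irrational (x i) ∧ Irrational (y i) ∧ 1 ≤ p i ∧
          ((a i : ℕ) < j i → ∀ r < ℓ, pq (α i) (p i + r) = pq (x i) r) ∧
          (0 < (a i : ℕ) → ℓ < p i ∧ ∀ r < ℓ, pq (α i) (p i - 1 - r) = pq (y i) r)) ∧
        (tensorSym j (fun i => !![x i, 1; -1, y i]) *ᵥ fun q => (c q : ℝ)) a = 0) →
      ∀ (n : ℕ), 0 < n → ∀ G : Matrix (Fin n) (Fin n) ℝ, SmallValues (tensorSym j g ⊗ₖ G)) := by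
  refine ⟨?_, ?_, ?_⟩
  · intro ι _ _ j α g row c hα hg hc H n hn G
    exact small_kron _ (relation j c hc α hα g row (fun i => (hg i).1) (fun i => (hg i).2) H) n hn G
  · intro j k hj hk α β hα hβ H g h i₀ j₀ hg hg1 hh hh1 n hn G
    exact small_kron _ (blocks j k hj hk hα hβ H g h i₀ j₀ hg hg1 hh hh1) n hn G
  · intro ι _ _ j α g row c a hα hg hc H n hn G
    exact small_kron _ (main j c hc a α hα g row (fun i => (hg i).1) (fun i => (hg i).2) H) n hn G

end Pool.Agent.Results.MP_77d073_nt.SymmetricTensorProducts
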