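import Pool.Agent.U541.TC.Cfr

set_option autoImplicit false

/-! # MP_77d073_nt: tensor products of systems of linear forms, commensurable limit forms

The systems are given by the rows of square real matrices; `formProd M x` is the product of the
linear forms at the integer point `x`.  `IsLimit g k` says that `k` is a limit of matrices `a g γ`
with `a` diagonal of determinant `± 1` and `γ` integral unimodular (so `k` is in the closure of the
orbit of `g` under the two groups).  Let `g`, `h`, `G` be real matrices of arbitrary sizes `n`, `m`,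
`r`; the rows of `g ⊗ h ⊗ G` give a system of `n m r` linear forms.

If this system has `ν > 0` then, for all limits `k` of `g`, `l` of `h`, `K` of `G`, the system of
`k ⊗ l ⊗ K` has the same lower bound, and the products `k_{ia} l_{jb} K_{ce}` (`i, j, c` fixed) are
linearly independent over `ℚ`; no entry of `k Y lᵀ` vanishes, `Y ≠ 0` integral; so, if `n = m ≥ 2`,
the closure of the orbit of `g` contains no matrix `D (lᵀ)⁻¹ Y⁻¹`, `D` diagonal, `Y` integral: the
orbit closures of `g` and of the dual of `h` are disjoint, even up to commensurability.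

For binary `g`, `h` with rows proportional to `(α, 1)` and `(β, 1)`, the other rows being arbitrary:
if arbitrarily long initial blocks of the continued fractions of `ξ` and `η` occur, directly or
reversed, in those of `α` and `β`, and if `a + b ξ + c η + d ξ η = 0` for some integers `a, b, c, d`,
not all zero (for example if `ξ` and `η` lie in one quadratic field), then `ν = 0`. -/

open Matrix Kronecker Filter Topology

namespace Pool.Agent.Results.MP_77d073_nt.TensorCommensurable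

open Pool.Agent.U541.TC Pool.Agent.N759.CFr

theorem result :
    (∀ (ι κ ρ : Type) [Fintype ι] [DecidableEq ι] [Fintype κ] [DecidableEq κ] [Fintype ρ]
      [DecidableEq ρ] [Nonempty ρ] (g : Matrix ι ι ℝ) (h : Matrix κ κ ℝ) (G : Matrix ρ ρ ℝ) (ν : ℝ),
      0 < ν → (∀ x : (ι × κ) × ρ → ℤ, x ≠ 0 → ν ≤ |formProd ((g ⊗ₖ h) ⊗ₖ G) x|) →
      ∀ (k : Matrix ι ι ℝ) (l : Matrix κ κ ℝ) (K : Matrix ρ ρ ℝ),
        IsLimit g k → IsLimit h l → IsLimit G K →
        (∀ x : (ι × κ) × ρ → ℤ, x ≠ 0 → ν ≤ |formProd ((k ⊗ₖ l) ⊗ₖ K) x|) ∧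
        (∀ i j c, LinearIndependent ℚ
          fun p : (ι × κ) × ρ => k i p.1.1 * l j p.1.2 * K c p.2) ∧
        (∀ Y : Matrix ι κ ℤ, Y ≠ 0 → ∀ i j, (k * Y.map (Int.cast : ℤ → ℝ) * lᵀ) i j ≠ 0)) ∧
    (∀ (ι ρ : Type) [Fintype ι] [DecidableEq ι] [Nontrivial ι] [Fintype ρ] [DecidableEq ρ]
      [Nonempty ρ] (g h : Matrix ι ι ℝ) (G : Matrix ρ ρ ℝ) (k l : Matrix ι ι ℝ)
      (Y : Matrix ι ι ℤ) (D : ι → ℝ), IsLimit g k → IsLimit h l → IsUnit l.det → Y ≠ 0 →
      k * Y.map (Int.cast : ℤ → ℝ) = Matrix.diagonal D * (lᵀ)⁻¹ →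
      ∀ ε > 0, ∃ x : (ι × ι) × ρ → ℤ, x ≠ 0 ∧ |formProd ((g ⊗ₖ h) ⊗ₖ G) x| < ε) ∧
    (∀ (ρ : Type) [Fintype ρ] [DecidableEq ρ] [Nonempty ρ] (α β ξ η : ℝ), Irrational α →
      Irrational β → Irrational ξ → Irrational η →
      ∀ (g h : Matrix (Fin 2) (Fin 2) ℝ) (G : Matrix ρ ρ ℝ) (i₀ j₀ : Fin 2),
        g i₀ 0 = α * g i₀ 1 → h j₀ 0 = β * h j₀ 1 → Occ ξ α → Occ η β →
      ∀ a b c d : ℤ, (a, b, c, d) ≠ (0, 0, 0, 0) →
        (a : ℝ) + b * ξ + c * η + d * (ξ * η) = 0 →
      ∀ ε > 0, ∃ x : (Fin 2 × Fin 2) × ρ → ℤ, x ≠ 0 ∧ |formProd ((g ⊗ₖ h) ⊗ₖ G) x| < ε) := by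
  refine ⟨?_, ?_, ?_⟩
  · intro ι κ ρ _ _ _ _ _ _ _ g h G ν hν0 hν k l K hk hl hK
    have h1 := lower ((hk.kron hl).kron hK) hν
    exact ⟨h1, fun i j c => rows_indep hν0 h1 ((i, j), c), fun Y hY i j =>
      entry_ne hν0 hν hk hl Y hY i j⟩
  · intro ι ρ _ _ _ _ _ _ g h G k l Y D hk hl hdet hY he ε hε
    by_contra hcon
    push Not at hcon
    obtain ⟨i, j, hij⟩ := exists_pair_ne ι
    refine entry_ne hε hcon hk hl Y hY i j ?_
    rw [he, mul_assoc, Matrix.nonsing_inv_mul _ (by rw [Matrix.det_transpose]; exact hdet),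
      mul_one, Matrix.diagonal_apply_ne _ hij]
  · intro ρ _ _ _ α β ξ η hα hβ hξ hη g h G i₀ j₀ hg hh ho ho' a b c d h0 hrel ε hε
    by_contra hcon
    push Not at hcon
    obtain ⟨h1, h2, h3, h4⟩ := bilinear hα hβ hξ hη g h G i₀ j₀ hg hh ho ho' hε hcon a b c d hrel
    exact h0 (by rw [h1, h2, h3, h4])

end Pool.Agent.Results.MP_77d073_nt.TensorCommensurable
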